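import Pool.Agent.W307.IM.Stm

set_option autoImplicit false

namespace Pool.Agent.W190.IM

open Finset Filter Pool.Agent.W307.IM

theorem analytic (M Cz Ce δ : ℝ) (hδ : 0 < δ) : ∃ X0 : ℝ, ∀ x : ℝ, X0 ≤ x →
    3 ≤ x ∧ (Real.log x) ^ (2 * Cz + Ce) ≤ x ^ (δ / 2) ∧ (Real.log x) ^ (-(2 * Cz)) ≤ x ∧
      4 * M + 5 ≤ x ^ (δ / 2) := by
  have h1 : ∀ᶠ x : ℝ in atTop, (3 : ℝ) ≤ x := eventually_ge_atTop 3
  have h2 := (isLittleO_log_rpow_rpow_atTop (2 * Cz + Ce) (half_pos hδ)).bound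
    (show (0 : ℝ) < 1 by norm_num)
  have h3 := (isLittleO_log_rpow_rpow_atTop (-(2 * Cz)) (show (0 : ℝ) < 1 by norm_num)).bound
    (show (0 : ℝ) < 1 by norm_num)
  have h4 := (tendsto_rpow_atTop (half_pos hδ)).eventually_ge_atTop (4 * M + 5)
  obtain ⟨X0, h⟩ := eventually_atTop.mp (h1.and (h2.and (h3.and h4)))
  refine ⟨X0, fun x hx => ?_⟩
  obtain ⟨g1, g2, g3, g4⟩ := h x hx
  have hl : 0 ≤ Real.log x := Real.log_nonneg (by linarith)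
  have hx0 : 0 ≤ x := by linarith
  refine ⟨g1, ?_, ?_, g4⟩
  · rw [Real.norm_of_nonneg (Real.rpow_nonneg hl _), Real.norm_of_nonneg (Real.rpow_nonneg hx0 _),
      one_mul] at g2
    exact g2
  · rw [Real.norm_of_nonneg (Real.rpow_nonneg hl _), Real.norm_of_nonneg (Real.rpow_nonneg hx0 _),
      one_mul, Real.rpow_one] at g3
    exact g3

theorem sums (S Bd : Finset ℕ) (hsub : Bd ⊆ S) (u κ Z : ℝ) (a : ℕ → ℝ) (hu : 4 < u)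
    (hκ : κ = (u - 1) / 2) (hZ0 : 0 ≤ Z)
    (ha : ∀ e ∈ S, e ∉ Bd → Z / (2 * 2 ^ e.primeFactors.card) ≤ a e) :
    Z ^ 2 / 4 * (∑ e ∈ S, κ ^ e.primeFactors.card / (e : ℝ) -
      ∑ e ∈ Bd, κ ^ e.primeFactors.card / (e : ℝ)) ≤
      ∑ e ∈ S, (u - 1) ^ e.primeFactors.card * (2 ^ e.primeFactors.card / (e : ℝ)) * (a e) ^ 2 ∧
    0 ≤ ∑ e ∈ S, κ ^ e.primeFactors.card / (e : ℝ) -
      ∑ e ∈ Bd, κ ^ e.primeFactors.card / (e : ℝ) := by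
  have hu1 : 0 ≤ u - 1 := by linarith
  have hκ0 : 0 ≤ κ := by rw [hκ]; linarith
  have hterm : ∀ e ∈ S \ Bd, Z ^ 2 / 4 * (κ ^ e.primeFactors.card / (e : ℝ)) ≤
      (u - 1) ^ e.primeFactors.card * (2 ^ e.primeFactors.card / (e : ℝ)) * (a e) ^ 2 := by
    intro e he
    rw [Finset.mem_sdiff] at he
    have h1 := ha e he.1 he.2
    generalize e.primeFactors.card = m at h1 ⊢
    have h2 : 0 ≤ Z / (2 * 2 ^ m) := by positivity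
    have h3 : (Z / (2 * 2 ^ m)) ^ 2 ≤ (a e) ^ 2 := pow_le_pow_left₀ h2 h1 2
    have h4 : 0 ≤ (u - 1) ^ m * (2 ^ m / (e : ℝ)) := by positivity
    refine le_trans (le_of_eq ?_) (mul_le_mul_of_nonneg_left h3 h4)
    rw [hκ, div_pow, div_pow, mul_pow, div_eq_mul_inv _ (e : ℝ), div_eq_mul_inv _ (e : ℝ)]
    have h5 : (2 : ℝ) ^ m ≠ 0 := by positivity
    generalize ((e : ℝ)⁻¹) = r
    generalize (2 : ℝ) ^ m = c at h5 ⊢
    generalize (u - 1) ^ m = d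
    field_simp
    try ring
  have hnn : ∀ e ∈ Bd, 0 ≤ (u - 1) ^ e.primeFactors.card * (2 ^ e.primeFactors.card / (e : ℝ)) *
        (a e) ^ 2 := by
    intro e _
    positivity
  have hsum := Finset.sum_le_sum hterm
  rw [← Finset.mul_sum] at hsum
  have hs1 := Finset.sum_sdiff (f := fun e : ℕ => κ ^ e.primeFactors.card / (e : ℝ)) hsub
  have hs2 := Finset.sum_sdiff (f := fun e : ℕ => (u - 1) ^ e.primeFactors.card *
    (2 ^ e.primeFactors.card / (e : ℝ)) * (a e) ^ 2) hsub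
  have hs3 := Finset.sum_nonneg hnn
  have hDf0 : 0 ≤ ∑ e ∈ S \ Bd, κ ^ e.primeFactors.card / (e : ℝ) :=
    Finset.sum_nonneg (fun e _ => by positivity)
  have e1 : ∑ e ∈ S, κ ^ e.primeFactors.card / (e : ℝ) -
      ∑ e ∈ Bd, κ ^ e.primeFactors.card / (e : ℝ) =
      ∑ e ∈ S \ Bd, κ ^ e.primeFactors.card / (e : ℝ) := by
    rw [← hs1]; ring
  rw [e1]
  refine ⟨?_, hDf0⟩
  rw [← hs2]
  exact hsum.trans (le_add_of_nonneg_right hs3)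

theorem fin (M Cz Ce δ κ z T x y Z D Q MSv : ℝ) (g1 : 3 ≤ x) (hy0 : 0 < y)
    (g2 : y ^ (2 * Cz + Ce) ≤ x ^ (δ / 2)) (g3 : y ^ (-(2 * Cz)) ≤ x)
    (g4 : 4 * M + 5 ≤ x ^ (δ / 2)) (hT0 : 0 ≤ T) (hz1 : z < 1) (hδ : δ = κ + 2 * z - 2)
    (z1 : T * x ^ (z - 1) / y ^ Cz ≤ Z) (e1 : x ^ κ / y ^ Ce - 1 / x ≤ D) (h0 : 0 ≤ D)
    (hq : Z ^ 2 / 4 * D ≤ Q) (x1 : Q ≤ MSv + T ^ 2 / x ^ 4) : M * T ^ 2 ≤ MSv := by
  have hx0 : 0 < x := by linarith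
  have hW0 : 0 ≤ T * x ^ (z - 1) / y ^ Cz := by positivity
  have hsq : (T * x ^ (z - 1) / y ^ Cz) ^ 2 ≤ Z ^ 2 := pow_le_pow_left₀ hW0 z1 2
  have hmain : (T * x ^ (z - 1) / y ^ Cz) ^ 2 / 4 * (x ^ κ / y ^ Ce - 1 / x) ≤
      MSv + T ^ 2 / x ^ 4 := by
    have i1 : (T * x ^ (z - 1) / y ^ Cz) ^ 2 / 4 * (x ^ κ / y ^ Ce - 1 / x) ≤
        (T * x ^ (z - 1) / y ^ Cz) ^ 2 / 4 * D :=
      mul_le_mul_of_nonneg_left e1 (by positivity)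
    have i2 : (T * x ^ (z - 1) / y ^ Cz) ^ 2 / 4 * D ≤ Z ^ 2 / 4 * D :=
      mul_le_mul_of_nonneg_right (by linarith) h0
    exact i1.trans (i2.trans (hq.trans x1))
  have k1 : (T * x ^ (z - 1) / y ^ Cz) ^ 2 / 4 * (x ^ κ / y ^ Ce - 1 / x) =
      T ^ 2 / 4 * (x ^ δ / y ^ (2 * Cz + Ce) - x ^ (2 * z - 3) * y ^ (-(2 * Cz))) := by
    have j1 : x ^ δ = (x ^ (z - 1)) ^ 2 * x ^ κ := by
      rw [← Real.rpow_natCast, ← Real.rpow_mul hx0.le, ← Real.rpow_add hx0]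
      congr 1
      rw [hδ]; push_cast; ring
    have j2 : x ^ (2 * z - 3) = (x ^ (z - 1)) ^ 2 * (1 / x) := by
      rw [one_div, ← Real.rpow_neg_one x, ← Real.rpow_natCast, ← Real.rpow_mul hx0.le,
        ← Real.rpow_add hx0]
      congr 1
      push_cast; ring
    have j3 : y ^ (2 * Cz + Ce) = (y ^ Cz) ^ 2 * y ^ Ce := by
      rw [← Real.rpow_natCast (y ^ Cz), ← Real.rpow_mul hy0.le, ← Real.rpow_add hy0]
      congr 1
      push_cast; ring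
    have j4 : y ^ (-(2 * Cz)) = 1 / (y ^ Cz) ^ 2 := by
      rw [Real.rpow_neg hy0.le, one_div, ← Real.rpow_natCast (y ^ Cz), ← Real.rpow_mul hy0.le]
      congr 2
      push_cast; ring
    rw [j1, j2, j3, j4]
    have hyc : y ^ Cz ≠ 0 := (Real.rpow_pos_of_pos hy0 _).ne'
    have hye : y ^ Ce ≠ 0 := (Real.rpow_pos_of_pos hy0 _).ne'
    generalize y ^ Cz = c1 at hyc ⊢
    generalize y ^ Ce = c2 at hye ⊢
    generalize x ^ (z - 1) = c3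
    generalize x ^ κ = c4
    field_simp
  have k2 : x ^ (δ / 2) ≤ x ^ δ / y ^ (2 * Cz + Ce) := by
    rw [le_div_iff₀ (Real.rpow_pos_of_pos hy0 _)]
    calc x ^ (δ / 2) * y ^ (2 * Cz + Ce) ≤ x ^ (δ / 2) * x ^ (δ / 2) :=
          mul_le_mul_of_nonneg_left g2 (Real.rpow_nonneg hx0.le _)
      _ = x ^ δ := by rw [← Real.rpow_add hx0]; congr 1; ring
  have k3 : x ^ (2 * z - 3) * y ^ (-(2 * Cz)) ≤ 1 := by
    calc x ^ (2 * z - 3) * y ^ (-(2 * Cz)) ≤ x ^ (2 * z - 3) * x :=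
          mul_le_mul_of_nonneg_left g3 (Real.rpow_nonneg hx0.le _)
      _ = x ^ (2 * z - 2) := by
          nth_rewrite 2 [← Real.rpow_one x]
          rw [← Real.rpow_add hx0]; congr 1; ring
      _ ≤ 1 := Real.rpow_le_one_of_one_le_of_nonpos (by linarith) (by linarith)
  have k4 : T ^ 2 / x ^ 4 ≤ T ^ 2 :=
    div_le_self (by positivity) (one_le_pow₀ (by linarith))
  rw [k1] at hmain
  have k5 : T ^ 2 / 4 * (4 * M + 5 - 1) ≤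
      T ^ 2 / 4 * (x ^ δ / y ^ (2 * Cz + Ce) - x ^ (2 * z - 3) * y ^ (-(2 * Cz))) :=
    mul_le_mul_of_nonneg_left (by linarith) (by positivity)
  have k6 := k5.trans hmain
  have k7 : T ^ 2 / 4 * (4 * M + 5 - 1) = M * T ^ 2 + T ^ 2 := by ring
  linarith

theorem ana_of : ZLOW → ELOW → BADE → AELO → EXPM → ANA := by
  classical
  intro hZ hE hB hA hX s hs M
  have hu : (4 : ℝ) < (2 : ℝ) ^ s := by
    have : (2 : ℝ) ^ (2 : ℝ) < (2 : ℝ) ^ s := Real.rpow_lt_rpow_of_exponent_lt (by norm_num) hs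
    have h4 : (2 : ℝ) ^ (2 : ℝ) = 4 := by norm_num
    linarith
  obtain ⟨u, hudef⟩ : ∃ u : ℝ, u = (2 : ℝ) ^ s := ⟨_, rfl⟩
  obtain ⟨z, hzdef⟩ : ∃ z : ℝ, z = (2 : ℝ) ^ (-s) := ⟨_, rfl⟩
  have hzu : z = 1 / u := by rw [hzdef, Real.rpow_neg (by norm_num), hudef]; simp
  rw [← hudef] at hu
  have hupos : 0 < u := by linarith
  have hz0 : 0 < z := by rw [hzu]; positivity
  have hz1 : z < 1 := by rw [hzu, div_lt_one hupos]; linarith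
  obtain ⟨κ, hκ⟩ : ∃ κ : ℝ, κ = (u - 1) / 2 := ⟨_, rfl⟩
  have hκ0 : 0 < κ := by rw [hκ]; linarith
  obtain ⟨δ, hδdef⟩ : ∃ δ : ℝ, δ = κ + 2 * z - 2 := ⟨_, rfl⟩
  have hδ : 0 < δ := by
    have : δ = (u - 1) * (u - 4) / (2 * u) := by
      rw [hδdef, hκ, hzu]; field_simp; ring
    rw [this]
    apply div_pos (mul_pos (by linarith) (by linarith)) (by linarith)
  obtain ⟨K0, hE1⟩ := hE κ hκ0
  obtain ⟨B, hA1⟩ := hA z K0 hz0 hz1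
  obtain ⟨A1, hA2⟩ := hA1 B le_rfl
  obtain ⟨A2, hB2⟩ := hB z κ B K0 hz0 hz1 hκ0
  obtain ⟨A3, hX2⟩ := hX s K0 (by linarith)
  obtain ⟨A, hA1', hA2', hA3'⟩ : ∃ A : ℕ, A1 ≤ A ∧ A2 ≤ A ∧ A3 ≤ A :=
    ⟨A1 + A2 + A3, by omega, by omega, by omega⟩
  obtain ⟨T1, hA3⟩ := hA2 A hA1'
  obtain ⟨T2, hB3⟩ := hB2 A hA2'
  obtain ⟨T3, hX3⟩ := hX2 A hA3'
  obtain ⟨Cz, T4, hZ1⟩ := hZ z A hz0 hz1
  obtain ⟨Ce, T5, hE2⟩ := hE1 K0 A le_rfl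
  obtain ⟨X0, hX0⟩ := analytic M Cz Ce δ hδ
  have hlog : Tendsto (fun T : ℕ => Real.log (T : ℝ)) atTop atTop :=
    Real.tendsto_log_atTop.comp tendsto_natCast_atTop_atTop
  obtain ⟨T6, hT6⟩ := eventually_atTop.mp (hlog.eventually_ge_atTop X0)
  refine ⟨max (max T1 T2) (max (max T3 T4) (max T5 T6)), fun T hT => ?_⟩
  simp only [max_le_iff] at hT
  obtain ⟨⟨t1, t2⟩, ⟨t3, t4⟩, t5, t6⟩ := hT
  obtain ⟨g1, g2, g3, g4⟩ := hX0 _ (hT6 T t6)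
  have a1 := hA3 T t1
  have b1 := hB3 T t2
  have x1 := hX3 T t3
  have z1 := hZ1 T t4
  have e1 := hE2 T t5
  clear hA3 hB3 hX3 hZ1 hE2 hA2 hB2 hX2 hE1 hA1 hZ hE hB hA hX
  rw [← hudef, ← hzdef] at x1
  have hy0 : 0 < Real.log (Real.log T) := Real.log_pos (by linarith)
  have hZ0 : 0 ≤ GG z (wT A T) T 1 := by
    refine le_trans ?_ z1
    have : 0 ≤ Real.log T := by linarith
    positivity
  obtain ⟨s1, s2⟩ := sums (ME A K0 T) (Bad z (1 / (Real.log T) ^ B) A K0 T)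
    (Finset.filter_subset _ _) u κ (GG z (wT A T) T 1) (fun e => AE z (wT A T) T e) hu hκ hZ0 a1
  exact fin M Cz Ce δ κ z T (Real.log T) (Real.log (Real.log T)) (GG z (wT A T) T 1) _ _ (MS s T)
    g1 hy0 g2 g3 g4 (Nat.cast_nonneg _) hz1 hδdef z1 (sub_le_sub e1 b1) s2 s1 x1

end Pool.Agent.W190.IM
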